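import Pool.Agent.U875.RQ.Core
import Pool.Agent.Y335.FL.Local11

/-!
# Graphs which are built from graphs with reducible quotients
-/

set_option autoImplicit false
set_option linter.unusedSectionVars false

namespace Pool.Agent.U875.RQ

open Finset Pool.Agent.TH676.Z Pool.Agent.Y335.FL Pool.Agent.Y358.IN Pool.Agent.U875.TP

variable {V E : Type} [Fintype V] [DecidableEq V] [Fintype E] [DecidableEq E]

theorem crs_comp (s t : E → V) (r : V → V) (Y : Finset V) :
    crs (r ∘ s) (r ∘ t) Y = crs s t (univ.filter (fun v => r v ∈ Y)) := by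
  ext e
  simp [crs]

theorem br_comp {s t : E → V} (h : Br s t ∅ ∅) (r : V → V) : Br (r ∘ s) (r ∘ t) ∅ ∅ := by
  intro Y _
  rw [crs_comp]
  exact h _ (disjoint_empty_right _)

/-- flows of the quotient by the components of `F` -/
theorem lift_quot {s t : E → V} {F : Finset E} {r : V → V} (h : Contracts s t F r)
    (hf : FlowOn (r ∘ s) (r ∘ t) ∅ ∅) : FlowOn s t ∅ F := by
  classical
  obtain ⟨r0, h1, h2, h3⟩ := Local11.quot s t F
  have hiff : ∀ x y, r0 x = r0 y ↔ r x = r y := by
    intro x y
    constructor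
    · intro h4
      have h5 := h3 (univ.filter (fun z => r z = r x)) (by
        rw [disjoint_left]
        intro e he heF
        rw [Cut3.mem_crs, mem_filter, mem_filter, h.1 e heF] at he
        exact he ⟨fun h9 => ⟨mem_univ _, h9.2⟩, fun h9 => ⟨mem_univ _, h9.2⟩⟩) x y h4
      exact ((mem_filter.1 (h5.1 (mem_filter.2 ⟨mem_univ _, rfl⟩))).2).symm
    · intro h4
      have h5 := h.2 (univ.filter (fun z => r0 z = r0 x)) (by
        rw [disjoint_left]
        intro e he heF
        have he' := (mem_filter.1 he).2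
        rw [mem_filter, mem_filter, h1 e heF] at he'
        exact he' ⟨fun h9 => ⟨mem_univ _, h9.2⟩, fun h9 => ⟨mem_univ _, h9.2⟩⟩) x y h4
      exact ((mem_filter.1 (h5.1 (mem_filter.2 ⟨mem_univ _, rfl⟩))).2).symm
  have h4 : FlowOn (r0 ∘ s) (r0 ∘ t) ∅ ∅ := by
    obtain ⟨f, f1, f2, f3⟩ := hf
    refine ⟨f, fun w => ?_, f2, f3⟩
    by_cases hw : ∃ x, r0 x = w
    · obtain ⟨x, rfl⟩ := hw
      rw [← f1 (r x)]
      unfold bd
      refine sum_congr rfl fun e _ => ?_
      simp only [Function.comp, hiff]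
    · unfold bd
      refine sum_eq_zero fun e _ => ?_
      have h5 : ¬ (r0 ∘ s) e = w := fun h6 => hw ⟨s e, h6⟩
      have h6 : ¬ (r0 ∘ t) e = w := fun h6 => hw ⟨t e, h6⟩
      rw [if_neg h5, if_neg h6, sub_self]
  have h5 := h2 ∅ h4
  rwa [union_empty] at h5

/-- strong sets can be contracted -/
theorem strong_flow {s d : E → V} {F : Finset E} (h : IsStrong s d F) (hf : FlowOn s d ∅ F) :
    FlowOn s d ∅ ∅ := by
  classical
  obtain ⟨X, hX, rfl, hp⟩ := h
  set C := inner s d X with hC
  have hmC : ∀ {e : E}, e ∈ C ↔ s e ∈ X ∧ d e ∈ X ∧ s e ≠ d e := by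
    intro e
    simp [hC, Pool.Agent.U875.TP.inner]
  let E' := {e : E // e ∈ C}
  let V' := {v : V // v ∈ X}
  let s' : E' → V' := fun e => ⟨s e.1, (hmC.1 e.2).1⟩
  let d' : E' → V' := fun e => ⟨d e.1, (hmC.1 e.2).2.1⟩
  obtain ⟨x0, hx0⟩ : X.Nonempty := card_pos.1 (by omega)
  have hpart : ∀ (c : ℕ) (π : V' → Fin c), Function.Surjective π →
      (∀ e ∈ (∅ : Finset E'), π (s' e) = π (d' e)) →
      5 * c ≤ (5 - 2) * (univ.filter (fun e => π (s' e) ≠ π (d' e))).card + 5 := by
    intro c π hπ _
    have h1 := hp c (fun v => if h : v ∈ X then π ⟨v, h⟩ else π ⟨x0, hx0⟩) (fun i => by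
      obtain ⟨v, hv⟩ := hπ i
      exact ⟨v.1, v.2, by rw [dif_pos v.2]; exact hv⟩)
    refine h1.trans ?_
    apply Nat.add_le_add_right
    apply Nat.mul_le_mul_left
    refine card_le_card_of_surjOn (fun e : E' => e.1) ?_
    intro e he
    rw [mem_coe, mem_filter] at he
    obtain ⟨he1, he2⟩ := he
    have h2 := hmC.1 he1
    refine ⟨⟨e, he1⟩, ?_, rfl⟩
    rw [mem_coe, mem_filter]
    refine ⟨mem_univ _, ?_⟩
    rw [dif_pos h2.1, dif_pos h2.2.1] at he2
    exact he2
  have hG := Pool.Agent.H170.Reg.good_strength 5 (by norm_num) s' d' ∅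
    (Pool.Agent.H170.Reg.good_empty 5 s' d') (by
      intro c π hπ h0
      have := hpart c π hπ h0
      convert this)
  obtain ⟨f, hf0, _, hf2⟩ := hf
  obtain ⟨h, hh1, hh2⟩ := hG 0 (fun e => f e.1)
  refine ⟨fun e => if he : e ∈ C then h ⟨e, he⟩ else f e, fun v => ?_, fun e he => absurd he
    (notMem_empty e), fun e _ _ => ?_⟩
  · have h3 : bd s d (fun e => if he : e ∈ C then h ⟨e, he⟩ else f e) v - bd s d f v =
        ∑ e : E', (h e - f e.1) * ((if s e.1 = v then 1 else 0) - (if d e.1 = v then 1 else 0)) := by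
      unfold bd
      rw [← sum_sub_distrib]
      have h4 : ∀ e : E, (((if s e = v then (if he : e ∈ C then h ⟨e, he⟩ else f e) else 0) -
          (if d e = v then (if he : e ∈ C then h ⟨e, he⟩ else f e) else 0)) -
          ((if s e = v then f e else 0) - (if d e = v then f e else 0))) =
          (if he : e ∈ C then (h ⟨e, he⟩ - f e) *
            ((if s e = v then 1 else 0) - (if d e = v then 1 else 0)) else 0) := by
        intro e
        by_cases he : e ∈ C
        · simp only [dif_pos he]
          by_cases h5 : s e = v <;> by_cases h6 : d e = v <;> simp [h5, h6] <;> ring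
        · simp only [dif_neg he, sub_self]
      rw [sum_congr rfl (fun e _ => h4 e)]
      rw [← sum_subset (subset_univ C) (fun e _ he => by rw [dif_neg he]), ← sum_coe_sort C]
      exact sum_congr rfl fun e _ => by rw [dif_pos e.2]
    rw [hf0 v, sub_zero] at h3
    rw [h3]
    by_cases hv : v ∈ X
    · have h4 := hh2 ⟨v, hv⟩
      refine Eq.trans ?_ h4
      refine sum_congr rfl fun e _ => ?_
      unfold Pool.Agent.H170.Reg.ic
      congr 2
      · by_cases h5 : s e.1 = v
        · rw [if_pos h5, if_pos (Subtype.ext h5)]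
        · rw [if_neg h5, if_neg (fun h6 => h5 (congrArg Subtype.val h6))]
      · by_cases h5 : d e.1 = v
        · rw [if_pos h5, if_pos (Subtype.ext h5)]
        · rw [if_neg h5, if_neg (fun h6 => h5 (congrArg Subtype.val h6))]
    · refine sum_eq_zero fun e _ => ?_
      have h5 := hmC.1 e.2
      rw [if_neg (fun h6 : s e.1 = v => hv (h6 ▸ h5.1)),
        if_neg (fun h6 : d e.1 = v => hv (h6 ▸ h5.2.1))]
      simp
  · by_cases he : e ∈ C
    · simp only [dif_pos he]
      exact hh1 ⟨e, he⟩ (mem_univ _)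
    · simp only [dif_neg he]
      exact hf2 e (notMem_empty _) he

/-- the boundary outside of a collapsed set -/
theorem bd_collapse (s t : E → V) (X : Finset V) (x : V) (f : E → ZMod 5) {v : V} (hv : v ∉ X)
    (hvx : v ≠ x) : bd (collapse X x ∘ s) (collapse X x ∘ t) f v = bd s t f v := by
  have h : ∀ u, collapse X x u = v ↔ u = v := by
    intro u
    unfold collapse
    split_ifs with h1
    · exact ⟨fun h2 => absurd h2.symm hvx, fun h2 => absurd (h2 ▸ h1) hv⟩
    · exact Iff.rfl
  unfold bd
  refine sum_congr rfl fun e _ => ?_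
  simp only [Function.comp, h]

theorem sum_cut_out {s t : E → V} {f : E → ZMod 5} {Y : Finset V}
    (h : ∀ v, v ∉ Y → bd s t f v = 0) :
    ∑ e ∈ crs s t Y, (if s e ∈ Y then f e else - f e) = 0 := by
  have h1 := sum_cut (src := s) (dst := t) (f := f) (Y := Yᶜ)
    (fun v hv => h v (mem_compl.1 hv))
  have h2 : crs s t Yᶜ = crs s t Y := by
    ext e
    rw [Cut3.mem_crs, Cut3.mem_crs, mem_compl, mem_compl]
    tauto
  rw [h2] at h1
  rw [← neg_eq_zero, ← sum_neg_distrib, ← h1]
  refine sum_congr rfl fun e _ => ?_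
  by_cases h3 : s e ∈ Y
  · rw [if_pos h3, if_neg (by rw [mem_compl]; exact fun h4 => h4 h3)]
  · rw [if_neg h3, if_pos (mem_compl.2 h3), neg_neg]

/-- flows are glued at a cut with at most three edges -/
theorem glue_cut {s t : E → V} (hbr : Br s t ∅ ∅) (X : Finset V) (hX : (crs s t X).card ≤ 3)
    {f1 f2 : E → ZMod 5} (a1 : ∀ v ∈ X, bd s t f1 v = 0) (a2 : ∀ v, v ∉ X → bd s t f2 v = 0)
    (n1 : ∀ e, f1 e ≠ 0) (n2 : ∀ e, f2 e ≠ 0) : FlowOn s t ∅ ∅ := by
  have hc1 : (crs s t X).card ≠ 1 := by
    have := hbr X (disjoint_empty_right _)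
    simpa using this
  have h03 : (crs s t X).card = 0 ∨ (crs s t X).card = 2 ∨ (crs s t X).card = 3 := by
    omega
  rcases h03 with h0 | h0 | h0
  · rw [card_eq_zero] at h0
    refine Cut4.glue (Y := X) (f1 := f1) (f2 := f2) a1 a2 (fun e _ => n1 e) (fun e _ _ => n2 e) ?_
    intro e he
    rw [h0] at he
    exact absurd he (notMem_empty _)
  · obtain ⟨e1, e2, hne, hY⟩ := card_eq_two.mp h0
    have s1 := sum_cut (src := s) (dst := t) (f := f1) (Y := X) a1
    have s2 := sum_cut_out (s := s) (t := t) (f := f2) (Y := X) a2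
    rw [hY, sum_pair hne] at s1 s2
    have : Fact (Nat.Prime 5) := ⟨by norm_num⟩
    set c : ZMod 5 := f2 e1 / f1 e1 with hc
    have hc0 : c ≠ 0 := div_ne_zero (n2 e1) (n1 e1)
    have hce : c * f1 e1 = f2 e1 := div_mul_cancel₀ _ (n1 e1)
    have hce2 : c * f1 e2 = f2 e2 := by
      by_cases h1 : s e1 ∈ X <;> by_cases h2 : s e2 ∈ X <;> simp only [h1, h2, if_true, if_false] at s1 s2
      · linear_combination c * s1 - s2 - hce
      · linear_combination -(c * s1) + s2 + hce
      · linear_combination c * s1 - s2 + hce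
      · linear_combination -(c * s1) + s2 - hce
    refine Cut4.glue (Y := X) (f1 := fun e => c * f1 e) (f2 := f2) ?_ a2
      (fun e _ => mul_ne_zero hc0 (n1 e)) (fun e _ _ => n2 e) ?_
    · intro v hv
      have h5 : bd s t (fun e => c * f1 e) v = c * bd s t f1 v := by
        unfold bd
        rw [mul_sum]
        refine sum_congr rfl fun e _ => ?_
        rw [mul_sub, mul_ite, mul_ite, mul_zero]
      rw [h5, a1 v hv, mul_zero]
    · intro e he
      rw [hY, mem_insert, mem_singleton] at he
      rcases he with rfl | rfl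
      · exact hce
      · exact hce2
  · obtain ⟨f', b1, b2, b3⟩ := three V E s t X h0 f1 a1 (fun e _ => n1 e) f2 (fun e _ => n2 e)
      (sum_cut_out a2)
    exact Cut4.glue b1 a2 b2 (fun e _ _ => n2 e) b3

/-- flows are glued at a separating vertex -/
theorem glue_vertex {s t : E → V} (v : V) (X : Finset V) (hv : v ∉ X)
    (hb : ∀ e, ¬ (s e ∈ X ↔ t e ∈ X) → s e = v ∨ t e = v)
    {f1 f2 : E → ZMod 5} (a1 : ∀ u ∈ X, bd s t f1 u = 0)
    (a2 : ∀ u, u ∉ X → u ≠ v → bd s t f2 u = 0)
    (n1 : ∀ e, f1 e ≠ 0) (n2 : ∀ e, f2 e ≠ 0) : FlowOn s t ∅ ∅ := by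
  set g : E → ZMod 5 := fun e => if s e ∈ X ∨ t e ∈ X then f1 e else f2 e with hg
  have hbd : ∀ u, u ≠ v → bd s t g u = 0 := by
    intro u hu
    by_cases huX : u ∈ X
    · rw [← a1 u huX]
      unfold bd
      refine sum_congr rfl fun e _ => ?_
      by_cases h3 : s e = u
      · have : s e ∈ X := h3 ▸ huX
        simp [hg, this]
      · by_cases h4 : t e = u
        · have : t e ∈ X := h4 ▸ huX
          simp [hg, this]
        · simp [h3, h4]
    · rw [← a2 u huX hu]
      unfold bd
      refine sum_congr rfl fun e _ => ?_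
      have key : (s e = u ∨ t e = u) → g e = f2 e := by
        intro h6
        have h7 : ¬ (s e ∈ X ∨ t e ∈ X) := by
          intro h8
          have h9 : ¬ (s e ∈ X ↔ t e ∈ X) := by
            rcases h6 with h6 | h6
            · have : s e ∉ X := h6 ▸ huX
              tauto
            · have : t e ∉ X := h6 ▸ huX
              tauto
          have h10 := hb e h9
          rcases h6 with h6 | h6 <;> rcases h10 with h10 | h10
          · exact hu (h6.symm.trans h10)
          · have h11 : s e ∉ X := h6 ▸ huX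
            have h12 : t e ∉ X := h10 ▸ hv
            tauto
          · have h11 : t e ∉ X := h6 ▸ huX
            have h12 : s e ∉ X := h10 ▸ hv
            tauto
          · exact hu (h6.symm.trans h10)
        simp only [hg, if_neg h7]
      by_cases h3 : s e = u
      · rw [if_pos h3, if_pos h3, key (Or.inl h3)]
      · rw [if_neg h3, if_neg h3]
        by_cases h4 : t e = u
        · rw [if_pos h4, if_pos h4, key (Or.inr h4)]
        · rw [if_neg h4, if_neg h4]
  have hbv : bd s t g v = 0 := by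
    have h3 := sum_bd s t g
    rw [sum_eq_single v (fun u _ hu => hbd u hu) (fun h => absurd (mem_univ v) h)] at h3
    exact h3
  refine ⟨g, fun u => ?_, fun e he => absurd he (notMem_empty _), fun e _ _ => ?_⟩
  · by_cases hu : u = v
    · rw [hu]; exact hbv
    · exact hbd u hu
  · by_cases h3 : s e ∈ X ∨ t e ∈ X
    · simp only [hg, if_pos h3]
      exact n1 e
    · simp only [hg, if_neg h3]
      exact n2 e

/-- **Flows modulo five of the graphs of the class.** -/
theorem Built.flow (hc : St_contract) (ha : St_ahl) {s t : E → V} (h : Built s t) :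
    Br s t ∅ ∅ → FlowOn s t ∅ ∅ := by
  classical
  induction h with
  | base h => exact fun hbr => flow_of_quotients hc ha _ _ hbr h
  | @contract s t F r h1 h2 _ ih =>
    intro hbr
    have h3 := lift_quot h2 (ih (br_comp hbr r))
    rcases h1 with ⟨k, v, e, hk, hv, he, hj, rfl⟩ | h1
    · exact hc V E s t ∅ k hk v e hv he hj (fun i => notMem_empty _) h3
    · exact strong_flow h1 h3
  | @edge s t X e h1 h2 _ ih =>
    intro hbr
    have h3 := ih (br_comp hbr _)
    have hne : s e ≠ t e := fun h4 => by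
      have h5 := (mem_filter.1 h2).2
      rw [h4] at h5
      exact h5 Iff.rfl
    have h4 : FlowOn s t ∅ {e} := by
      obtain ⟨f, f1, _, f3⟩ := h3
      have hb : ∀ x, x ≠ s e → x ≠ t e → bd s t f x = 0 := by
        intro x hx1 hx2
        rw [← bd_collapse s t {s e} (t e) f (by simpa using hx1) hx2]
        exact f1 x
      have hb2 : bd s t f (s e) + bd s t f (t e) = 0 := by
        have h5 := sum_bd s t f
        rw [← add_sum_erase _ _ (mem_univ (s e)), ← add_sum_erase _ _ (mem_erase.2
          ⟨hne.symm, mem_univ (t e)⟩), sum_eq_zero (fun x hx => hb x (mem_erase.1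
            (mem_of_mem_erase hx)).1 (mem_erase.1 hx).1), add_zero] at h5
        exact h5
      refine ⟨f + Pi.single e (bd s t f (t e)), fun v => ?_, fun x hx => absurd hx (notMem_empty x),
        fun x _ h2 => ?_⟩
      · rw [Crit.bd_add, Crit.bd_single]
        by_cases h1 : s e = v
        · have h2 : t e ≠ v := fun h => hne (h1.trans h.symm)
          rw [if_pos h1, if_neg h2, sub_zero, ← h1, hb2]
        · by_cases h2 : t e = v
          · rw [if_neg h1, if_pos h2, zero_sub, ← h2, add_neg_cancel]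
          · rw [if_neg h1, if_neg h2, hb v (Ne.symm h1) (Ne.symm h2)]; simp
      · have h3 : x ≠ e := fun h => h2 (by rw [h]; exact mem_singleton_self _)
        rw [Pi.add_apply, Pi.single_eq_of_ne h3, add_zero]
        exact f3 x (notMem_empty x) (notMem_empty x)
    have h1' : (crs s t X).card = 2 := h1
    have h2' : e ∈ crs s t X := h2
    obtain ⟨e2, hX⟩ : ∃ e2, crs s t X = {e, e2} ∧ e ≠ e2 := by
      have h5 : ((crs s t X).erase e).card = 1 := by rw [card_erase_of_mem h2', h1']
      obtain ⟨e2, h6⟩ := card_eq_one.1 h5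
      refine ⟨e2, by rw [← insert_erase h2', h6], fun h7 => ?_⟩
      have h8 : e2 ∈ (crs s t X).erase e := by rw [h6]; exact mem_singleton_self _
      exact (mem_erase.1 h8).1 h7.symm
    obtain ⟨hX, hne2⟩ := hX
    obtain ⟨f, hf1, _, hf2⟩ := h4
    have hsum := sum_cut (src := s) (dst := t) (f := f) (Y := X) (fun v _ => hf1 v)
    rw [hX, sum_pair hne2] at hsum
    refine ⟨f, hf1, fun e he => absurd he (notMem_empty _), fun a _ _ => ?_⟩
    by_cases hee : a = e
    · subst hee
      have h5 : f e2 ≠ 0 := hf2 e2 (notMem_empty _) (by simpa using hne2.symm)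
      intro h6
      rw [h6] at hsum
      apply h5
      by_cases h7 : s e2 ∈ X
      · simpa [h7] using hsum
      · simpa [h7] using hsum
    · exact hf2 a (notMem_empty _) (by simpa using hee)
  | @cut s t X x y h1 hx hy _ _ ih1 ih2 =>
    intro hbr
    obtain ⟨f2, b1, _, b3⟩ := ih1 (br_comp hbr _)
    obtain ⟨f1, a1, _, a3⟩ := ih2 (br_comp hbr _)
    refine glue_cut hbr X h1 (f1 := f1) (f2 := f2) (fun v hv => ?_) (fun v hv => ?_)
      (fun e => a3 e (notMem_empty _) (notMem_empty _))
      (fun e => b3 e (notMem_empty _) (notMem_empty _))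
    · rw [← bd_collapse s t Xᶜ y f1 (fun h => (mem_compl.1 h) hv) (fun h => hy (h ▸ hv))]
      exact a1 v
    · rw [← bd_collapse s t X x f2 hv (fun h => hv (h ▸ hx))]
      exact b1 v
  | @vertex s t v X hv hb _ _ ih1 ih2 =>
    intro hbr
    obtain ⟨f2, b1, _, b3⟩ := ih1 (br_comp hbr _)
    obtain ⟨f1, a1, _, a3⟩ := ih2 (br_comp hbr _)
    refine glue_vertex v X hv (fun e he => hb e (mem_filter.2 ⟨mem_univ _, he⟩)) (f1 := f1)
      (f2 := f2) (fun u hu => ?_) (fun u hu huv => ?_)
      (fun e => a3 e (notMem_empty _) (notMem_empty _))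
      (fun e => b3 e (notMem_empty _) (notMem_empty _))
    · rw [← bd_collapse s t (insert v X)ᶜ v f1 (fun h => (mem_compl.1 h) (mem_insert_of_mem hu))
        (fun h => hv (h ▸ hu))]
      exact a1 u
    · rw [← bd_collapse s t X v f2 hu huv]
      exact b1 u

end Pool.Agent.U875.RQ
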