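import Pool.Agent.U875.TP.Defs

/-!
# Multigraphs which are reducible for nowhere-zero 5-flows
-/

set_option autoImplicit false

namespace Pool.Agent.U875.RQ

open Finset Pool.Agent.U875.TP

variable {V E : Type} [Fintype V] [DecidableEq V] [Fintype E] [DecidableEq E]

/-- There is a circuit with `n` edges for some `n = 2, ..., 11`. -/
def ShortCircuit (s t : E → V) : Prop :=
  ∃ (k : ℕ) (v : Fin (k + 2) → V) (e : Fin (k + 2) → E), k ≤ 9 ∧ Function.Injective v ∧
    Function.Injective e ∧ ∀ i, IsEnds s t (v i) (v (i + 1)) (e i)

/-- The multigraph is reducible: there is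
(1) a vertex with exactly two boundary edges, or
(2) a circuit with `2, ..., 11` edges, or
(3) a set of `k ≥ 2` vertices which spans at least `5 (k - 1) / 3` edges (not loops), or
(4) a set with at most three boundary edges such that both the set and its complement span an edge, or
(5) a vertex `v` which separates: a set `X` not containing `v`, all boundary edges of which end in
`v`, such that both `X ∪ {v}` and the complement of `X` span an edge. -/
def Reducible (s t : E → V) : Prop :=
  (∃ a, (boundary s t {a}).card = 2) ∨ ShortCircuit s t ∨
  (∃ X : Finset V, 2 ≤ X.card ∧ 5 * X.card ≤ 3 * (inner s t X).card + 5) ∨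
  (∃ X : Finset V, (boundary s t X).card ≤ 3 ∧ (inner s t X).Nonempty ∧
    (inner s t Xᶜ).Nonempty) ∨
  (∃ (v : V) (X : Finset V), v ∉ X ∧ (∀ e ∈ boundary s t X, s e = v ∨ t e = v) ∧
    (inner s t (insert v X)).Nonempty ∧ (inner s t Xᶜ).Nonempty)

/-- Every quotient (the ends of the edges are mapped by `p`) with at least 126 vertices with exactly
three boundary edges is reducible. -/
def QuotientsReducible (s t : E → V) : Prop :=
  ∀ p : V → V, 126 ≤ (univ.filter (fun y => (boundary (p ∘ s) (p ∘ t) {y}).card = 3)).card →
    Reducible (p ∘ s) (p ∘ t)

/-- The map `r` identifies exactly those vertices which are connected by edges of `F`. -/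
def Contracts (s t : E → V) (F : Finset E) (r : V → V) : Prop :=
  (∀ e ∈ F, r (s e) = r (t e)) ∧
    ∀ Y : Finset V, Disjoint (boundary s t Y) F → ∀ x y, r x = r y → (x ∈ Y ↔ y ∈ Y)

/-- `F` is the edge set of a circuit with `2, ..., 11` edges. -/
def IsShortCircuit (s t : E → V) (F : Finset E) : Prop :=
  ∃ (k : ℕ) (v : Fin (k + 2) → V) (e : Fin (k + 2) → E), k ≤ 9 ∧ Function.Injective v ∧
    Function.Injective e ∧ (∀ i, IsEnds s t (v i) (v (i + 1)) (e i)) ∧ F = univ.image e

/-- `F` consists of the edges spanned by a set `X` which is strong: for every partition of `X` into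
`c` classes at least `5 (c - 1) / 3` of these edges join different classes. -/
def IsStrong (s t : E → V) (F : Finset E) : Prop :=
  ∃ X : Finset V, 2 ≤ X.card ∧ F = inner s t X ∧ ∀ (c : ℕ) (p : V → Fin c),
    (∀ i, ∃ v ∈ X, p v = i) → 5 * c ≤ 3 * ((inner s t X).filter (fun e => p (s e) ≠ p (t e))).card + 5

/-- The vertices in `X` are identified with `x`. -/
def collapse (X : Finset V) (x : V) (u : V) : V := if u ∈ X then x else u

/-- The graphs which are built from graphs with reducible quotients:
* graphs with reducible quotients;
* if the graph obtained by the contraction of a short circuit or of a strong set belongs to the class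
  then the graph belongs to the class;
* if `X` has exactly two boundary edges, and the graph obtained by the contraction of one of them
  belongs to the class then the graph belongs to the class;
* if `X` has at most three boundary edges and the two graphs in which one of the sides is collapsed
  belong to the class then the graph belongs to the class;
* if `v` is a separating vertex and the two graphs in which one side is collapsed into `v` belong to
  the class then the graph belongs to the class. -/
inductive Built : (E → V) → (E → V) → Prop
  | base {s t : E → V} : QuotientsReducible s t → Built s t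
  | contract {s t : E → V} (F : Finset E) (r : V → V) : (IsShortCircuit s t F ∨ IsStrong s t F) →
      Contracts s t F r → Built (r ∘ s) (r ∘ t) → Built s t
  | edge {s t : E → V} (X : Finset V) (e : E) : (boundary s t X).card = 2 → e ∈ boundary s t X →
      Built (collapse {s e} (t e) ∘ s) (collapse {s e} (t e) ∘ t) → Built s t
  | cut {s t : E → V} (X : Finset V) (x y : V) : (boundary s t X).card ≤ 3 → x ∈ X → y ∉ X →
      Built (collapse X x ∘ s) (collapse X x ∘ t) →
      Built (collapse Xᶜ y ∘ s) (collapse Xᶜ y ∘ t) → Built s t
  | vertex {s t : E → V} (v : V) (X : Finset V) : v ∉ X →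
      (∀ e ∈ boundary s t X, s e = v ∨ t e = v) →
      Built (collapse X v ∘ s) (collapse X v ∘ t) →
      Built (collapse (insert v X)ᶜ v ∘ s) (collapse (insert v X)ᶜ v ∘ t) → Built s t

end Pool.Agent.U875.RQ
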