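import Pool.Agent.N410.FV.Main
import Pool.Agent.TH676.Z.Three
import Pool.Agent.TH676.Z.Cut4
import Pool.Agent.U875.RQ.Defs

/-!
# Minimal quotients without nowhere-zero 5-flow are not reducible
-/

set_option autoImplicit false
set_option linter.unusedSectionVars false

namespace Pool.Agent.U875.RQ

open Finset Pool.Agent.TH676.Z Pool.Agent.Y335.FL Pool.Agent.Y358.IN Pool.Agent.U875.TP

variable {V E : Type} [Fintype V] [DecidableEq V] [Fintype E] [DecidableEq E]

/-- the two flows at a cut -/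
theorem sides {src dst : E → V} (h : MinC src dst) (Y : Finset V)
    (h1 : ∃ e, src e ≠ dst e ∧ src e ∈ Y ∧ dst e ∈ Y)
    (h2 : ∃ e, src e ≠ dst e ∧ src e ∉ Y ∧ dst e ∉ Y) :
    ∃ f1 f2 : E → ZMod 5, (∀ v, bd src dst f1 v = 0) ∧ (∀ v, bd src dst f2 v = 0) ∧
      (∀ e, (src e ∈ Y ∨ dst e ∈ Y) → f1 e ≠ 0) ∧
      (∀ e, (src e ∉ Y ∨ dst e ∉ Y) → f2 e ≠ 0) := by
  obtain ⟨f1, a1, _, a3⟩ := h.crit (univ.filter (fun e => src e ∉ Y ∧ dst e ∉ Y)) (by
    obtain ⟨e, he, he2⟩ := h2
    exact ⟨e, by simpa using he2, he⟩)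
  obtain ⟨f2, b1, _, b3⟩ := h.crit (univ.filter (fun e => src e ∈ Y ∧ dst e ∈ Y)) (by
    obtain ⟨e, he, he2⟩ := h1
    exact ⟨e, by simpa using he2, he⟩)
  refine ⟨f1, f2, a1, b1, fun e he => a3 e (notMem_empty _) ?_,
    fun e he => b3 e (notMem_empty _) ?_⟩
  · simp only [mem_filter, mem_univ, true_and]; tauto
  · simp only [mem_filter, mem_univ, true_and]; tauto

/-- **small cuts**: one side of a cut with at most three edges spans no edge -/
theorem smallcut {src dst : E → V} (h : MinC src dst) (Y : Finset V)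
    (hY : (crs src dst Y).card ≤ 3)
    (h1 : ∃ e, src e ≠ dst e ∧ src e ∈ Y ∧ dst e ∈ Y)
    (h2 : ∃ e, src e ≠ dst e ∧ src e ∉ Y ∧ dst e ∉ Y) : False := by
  have hc1 : (crs src dst Y).card ≠ 1 := by
    have := h.br Y (disjoint_empty_right _)
    simpa using this
  have h03 : (crs src dst Y).card = 0 ∨ (crs src dst Y).card = 2 ∨ (crs src dst Y).card = 3 := by
    omega
  rcases h03 with h0 | h0 | h0
  · rw [card_eq_zero] at h0
    obtain ⟨f1, f2, a1, a2, a3, a4⟩ := sides h Y h1 h2
    refine h.nf (Cut4.glue (Y := Y) (f1 := f1) (f2 := f2)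
      (fun v _ => a1 v) (fun v _ => a2 v) a3 (fun e he _ => a4 e (Or.inl he)) ?_)
    intro e he
    rw [h0] at he
    exact absurd he (notMem_empty _)
  · obtain ⟨e1, e2, hne, hY⟩ := card_eq_two.mp h0
    have he1 : e1 ∈ crs src dst Y := by rw [hY]; simp
    obtain ⟨f, hf1, _, hf2⟩ := h.crit {e1} ⟨e1, by simp, fun heq => by
      rw [Cut3.mem_crs, heq] at he1; exact he1 Iff.rfl⟩
    have hsum := sum_cut (src := src) (dst := dst) (f := f) (Y := Y) (fun v _ => hf1 v)
    rw [hY, sum_pair hne] at hsum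
    refine h.nf ⟨f, hf1, fun e he => absurd he (notMem_empty _), fun e _ _ => ?_⟩
    by_cases hee : e = e1
    · subst hee
      have h5 : f e2 ≠ 0 := hf2 e2 (notMem_empty _) (by simpa using hne.symm)
      intro h6
      rw [h6] at hsum
      apply h5
      by_cases h7 : src e2 ∈ Y
      · simpa [h7] using hsum
      · simpa [h7] using hsum
    · exact hf2 e (notMem_empty _) (by simpa using hee)
  · obtain ⟨f1, f2, a1, a2, a3, a4⟩ := sides h Y h1 h2
    obtain ⟨f', b1, b2, b3⟩ := three V E src dst Y h0 f1 (fun v _ => a1 v) a3 f2 (fun e he => by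
      rw [Cut3.mem_crs] at he
      exact a4 e (by tauto)) (sum_cut fun v _ => a2 v)
    exact h.nf (Cut4.glue b1 (fun v _ => a2 v) b2 (fun e he _ => a4 e (Or.inl he)) b3)

/-- the sum of the boundary values is zero -/
theorem sum_bd (src dst : E → V) (f : E → ZMod 5) : ∑ v, bd src dst f v = 0 := by
  unfold bd
  rw [sum_comm]
  refine sum_eq_zero fun e _ => ?_
  rw [sum_sub_distrib, sum_ite_eq, sum_ite_eq, if_pos (mem_univ _), if_pos (mem_univ _), sub_self]

/-- **there is no separating vertex** -/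
theorem no_cutvertex {src dst : E → V} (h : MinC src dst) (v : V) (X : Finset V) (hv : v ∉ X)
    (hb : ∀ e, ¬ (src e ∈ X ↔ dst e ∈ X) → src e = v ∨ dst e = v)
    (h1 : ∃ e, src e ≠ dst e ∧ src e ∈ insert v X ∧ dst e ∈ insert v X)
    (h2 : ∃ e, src e ≠ dst e ∧ src e ∉ X ∧ dst e ∉ X) : False := by
  obtain ⟨f1, a1, _, a3⟩ := h.crit (univ.filter (fun e => src e ∉ X ∧ dst e ∉ X)) (by
    obtain ⟨e, he, he2⟩ := h2
    exact ⟨e, by simpa using he2, he⟩)
  obtain ⟨f2, b1, _, b3⟩ := h.crit (univ.filter (fun e => src e ∈ insert v X ∧ dst e ∈ insert v X))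
    (by
      obtain ⟨e, he, he2⟩ := h1
      exact ⟨e, mem_filter.2 ⟨mem_univ _, he2⟩, he⟩)
  set g : E → ZMod 5 := fun e => if src e ∈ X ∨ dst e ∈ X then f1 e else
    if src e = v ∧ dst e = v then 1 else f2 e with hg
  have hbd : ∀ u, u ≠ v → bd src dst g u = 0 := by
    intro u hu
    by_cases huX : u ∈ X
    · rw [← a1 u]
      unfold bd
      refine sum_congr rfl fun e _ => ?_
      by_cases h3 : src e = u
      · have : src e ∈ X := h3 ▸ huX
        simp [hg, this]
      · by_cases h4 : dst e = u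
        · have : dst e ∈ X := h4 ▸ huX
          simp [hg, this]
        · simp [h3, h4]
    · rw [← b1 u]
      unfold bd
      refine sum_congr rfl fun e _ => ?_
      have key : (src e = u ∨ dst e = u) → g e = f2 e := by
        intro h6
        have h7 : ¬ (src e ∈ X ∨ dst e ∈ X) := by
          intro h8
          have h9 : ¬ (src e ∈ X ↔ dst e ∈ X) := by
            rcases h6 with h6 | h6
            · have : src e ∉ X := h6 ▸ huX
              tauto
            · have : dst e ∉ X := h6 ▸ huX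
              tauto
          have h10 := hb e h9
          rcases h6 with h6 | h6 <;> rcases h10 with h10 | h10
          · exact hu (h6.symm.trans h10)
          · have h11 : src e ∉ X := h6 ▸ huX
            have h12 : dst e ∉ X := h10 ▸ hv
            tauto
          · have h11 : dst e ∉ X := h6 ▸ huX
            have h12 : src e ∉ X := h10 ▸ hv
            tauto
          · exact hu (h6.symm.trans h10)
        have h8 : ¬ (src e = v ∧ dst e = v) := by
          rintro ⟨h9, h10⟩
          rcases h6 with h6 | h6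
          · exact hu (h6.symm.trans h9)
          · exact hu (h6.symm.trans h10)
        simp only [hg, if_neg h7, if_neg h8]
      by_cases h3 : src e = u
      · rw [if_pos h3, if_pos h3, key (Or.inl h3)]
      · rw [if_neg h3, if_neg h3]
        by_cases h4 : dst e = u
        · rw [if_pos h4, if_pos h4, key (Or.inr h4)]
        · rw [if_neg h4, if_neg h4]
  have hbv : bd src dst g v = 0 := by
    have h3 := sum_bd src dst g
    rw [sum_eq_single v (fun u _ hu => hbd u hu) (fun h => absurd (mem_univ v) h)] at h3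
    exact h3
  refine h.nf ⟨g, fun u => ?_, fun e he => absurd he (notMem_empty _), fun e _ _ => ?_⟩
  · by_cases hu : u = v
    · rw [hu]; exact hbv
    · exact hbd u hu
  · by_cases h3 : src e ∈ X ∨ dst e ∈ X
    · simp only [hg, if_pos h3]
      refine a3 e (notMem_empty _) ?_
      simp only [mem_filter, mem_univ, true_and]
      tauto
    · by_cases h4 : src e = v ∧ dst e = v
      · simp only [hg, if_neg h3, if_pos h4]
        decide
      · simp only [hg, if_neg h3, if_neg h4]
        refine b3 e (notMem_empty _) ?_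
        simp only [mem_filter, mem_univ, true_and, mem_insert]
        tauto

/-- **minimal quotients are not reducible** -/
theorem not_reducible (hc : St_contract) {s t : E → V} (h : MinC s t) : ¬ Reducible s t := by
  rintro (⟨a, ha⟩ | ⟨k, v, e, hk, hv, he, hj⟩ | ⟨X, h1, h2⟩ | ⟨X, h1, h2, h3⟩ |
    ⟨v, X, hv, hb, h1, h2⟩)
  · have h0 : 0 < (boundary s t {a}).card := by omega
    obtain ⟨e, he⟩ := card_pos.1 h0
    have h1 := (mem_filter.1 he).2
    rw [mem_singleton, mem_singleton] at h1
    have h2 : ∃ y, Adj s t a y := by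
      by_cases h3 : s e = a
      · have h4 : t e ≠ a := fun h4 => h1 ⟨fun _ => h4, fun _ => h3⟩
        exact ⟨t e, fun h5 => h4 h5.symm, e, Or.inl ⟨h3, rfl⟩⟩
      · have h4 : t e = a := by tauto
        exact ⟨s e, fun h5 => h3 h5.symm, e, Or.inr ⟨rfl, h4⟩⟩
    obtain ⟨y, hy⟩ := h2
    have h3 := cut_three h hy
    have h4 : crs s t {a} = boundary s t {a} := rfl
    rw [h4] at h3
    omega
  · exact no_circ hc h k hk v e hv he hj
  · have h3 := Pool.Agent.N410.FV.sparse h X h1
    have h4 : (Pool.Agent.N410.FV.ein s t X).card = (inner s t X).card := rfl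
    omega
  · obtain ⟨e1, he1⟩ := h2
    obtain ⟨e2, he2⟩ := h3
    have k1 := (mem_filter.1 he1).2
    have k2 := (mem_filter.1 he2).2
    exact smallcut h X h1 ⟨e1, k1.2.2, k1.1, k1.2.1⟩
      ⟨e2, k2.2.2, mem_compl.1 k2.1, mem_compl.1 k2.2.1⟩
  · obtain ⟨e1, he1⟩ := h1
    obtain ⟨e2, he2⟩ := h2
    have k1 := (mem_filter.1 he1).2
    have k2 := (mem_filter.1 he2).2
    exact no_cutvertex h v X hv (fun e he => hb e (mem_filter.2 ⟨mem_univ _, he⟩))
      ⟨e1, k1.2.2, k1.1, k1.2.1⟩ ⟨e2, k2.2.2, mem_compl.1 k2.1, mem_compl.1 k2.2.1⟩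

theorem dg_boundary (s t : E → V) (x : V) : dg s t x = (boundary s t {x}).card := by
  unfold dg boundary
  congr 1
  ext e
  rw [mem_filter, mem_filter, mem_singleton, mem_singleton]
  by_cases h1 : s e = x <;> by_cases h2 : t e = x
  · simp [h1, h2]
  · simp [h1, h2]
    exact fun h => h2 h.symm
  · simp [h1, h2]
  · simp [h1, h2]

/-- **Flows modulo five.** -/
theorem flow_of_quotients (hc : St_contract) (ha : St_ahl) (src dst : E → V)
    (hbr : Br src dst ∅ ∅) (h : QuotientsReducible src dst) : FlowOn src dst ∅ ∅ := by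
  classical
  by_contra hn
  obtain ⟨s, d, ⟨π, rfl, rfl⟩, hM⟩ := exists_minC (ccR src dst) src dst ⟨id, rfl, rfl⟩ hbr hn
  by_cases hl : ∀ e, (π ∘ src) e = (π ∘ dst) e
  · exact absurd (flow_of_loops hl) hM.nf
  push Not at hl
  obtain ⟨e0, he0⟩ := hl
  have h126 := Pool.Agent.N410.FV.cubic126 hc ha hM
    ⟨(π ∘ src) e0, (π ∘ dst) e0, he0, e0, Or.inl ⟨rfl, rfl⟩⟩
  refine not_reducible hc hM (h π (h126.trans (le_of_eq ?_)))
  congr 1
  ext x
  rw [mem_filter, mem_filter, dg_boundary]

end Pool.Agent.U875.RQ
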